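import Pool.Agent.J4H75.NC.Stm

/-!
Project NC (helper75), piece STEP (helper84): from a cycle on the subgroup `K` to a cycle on `L`.
-/

set_option autoImplicit false

namespace Pool.Agent.J4H84.NC

open Equiv Pool.Agent.J4H75.NC

variable {G : Type} [Group G]

/-- the coset `K x` -/
def co (K : Subgroup G) (x : G) : Set G := {y | y * x⁻¹ ∈ K}

theorem mem_self (K : Subgroup G) (x : G) : x ∈ co K x := by
  show x * x⁻¹ ∈ K
  rw [mul_inv_cancel]
  exact K.one_mem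

theorem co_eq {K : Subgroup G} {x y : G} (h : y ∈ co K x) : co K y = co K x := by
  ext z
  show z * y⁻¹ ∈ K ↔ z * x⁻¹ ∈ K
  have h1 : z * x⁻¹ = z * y⁻¹ * (y * x⁻¹) := by group
  rw [h1]
  exact (K.mul_mem_cancel_right h).symm

theorem symm {K : Subgroup G} {x y : G} (h : y ∈ co K x) : x ∈ co K y := by
  rw [co_eq h]
  exact mem_self K x

theorem right {K : Subgroup G} {x y b : G} : y * b ∈ co K (x * b) ↔ y ∈ co K x := by
  show y * b * (x * b)⁻¹ ∈ K ↔ y * x⁻¹ ∈ K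
  have : y * b * (x * b)⁻¹ = y * x⁻¹ := by group
  rw [this]

theorem ncard_co (K : Subgroup G) (x : G) : (co K x).ncard = Nat.card K := by
  have h1 : co K x = (fun k : G => k * x) '' (K : Set G) := by
    ext y
    constructor
    · intro hy
      exact ⟨y * x⁻¹, hy, by simp⟩
    · rintro ⟨k, hk, rfl⟩
      show k * x * x⁻¹ ∈ K
      rw [mul_inv_cancel_right]
      exact hk
  rw [h1, Set.ncard_image_of_injective _ (mul_left_injective x)]
  rfl

/-- what is known on one coset -/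
def Loc (A₀ : Set G) (K : Subgroup G) (B : Finset G) (e : ℕ) (S : Set G) (f : Perm G) (x : G) : Prop :=
  ∃ d : Perm G, d.IsCycleOn (co K x) ∧ (∀ y ∉ co K x, d y = y) ∧ (∀ y ∈ co K x, y⁻¹ * d y ∈ A₀) ∧
    ∃ D : Finset G, (∀ y ∈ co K x, y ∉ D → f y = d y) ∧ D.card ≤ {b | b ∈ B ∧ x * b ∈ S}.ncard + e

structure St (A₀ A : Set G) (K L : Subgroup G) (B : Finset G) (e : ℕ) (S : Set G) (f : Perm G) : Prop where
  one : (1 : G) ∈ S
  sub : S ⊆ (L : Set G)
  mul : ∀ k ∈ K, ∀ g ∈ S, k * g ∈ S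
  cyc : f.IsCycleOn S
  off : ∀ x ∉ S, f x = x
  stp : ∀ x ∈ S, x⁻¹ * f x ∈ A
  loc : ∀ x ∈ S, Loc A₀ K B e S f x

theorem congr_cyc [Finite G] {f f' : Perm G} {s : Set G} (h : f.IsCycleOn s) (h' : ∀ x ∈ s, f' x = f x) :
    f'.IsCycleOn s := by
  have hm : ∀ x ∈ s, f x ∈ s := fun x hx => h.1.mapsTo hx
  have hp : ∀ (n : ℕ), ∀ x ∈ s, (f ^ n) x ∈ s ∧ (f' ^ n) x = (f ^ n) x := by
    intro n
    induction n with
    | zero => intro x hx; exact ⟨hx, rfl⟩
    | succ n ih =>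
      intro x hx
      obtain ⟨h1, h2⟩ := ih x hx
      rw [pow_succ', pow_succ', Perm.mul_apply, Perm.mul_apply, h2]
      exact ⟨hm _ h1, h' _ h1⟩
  refine ⟨?_, fun x hx y hy => ?_⟩
  · exact h.1.congr (fun x hx => (h' x hx).symm)
  · obtain ⟨i, hi⟩ := (h.2 hx hy).exists_nat_pow_eq
    refine ⟨i, ?_⟩
    rw [zpow_natCast, (hp i x hx).2, hi]

theorem count_mono [Finite G] {B : Finset G} {x : G} {S S' : Set G} (h : S ⊆ S') :
    {b | b ∈ B ∧ x * b ∈ S}.ncard ≤ {b | b ∈ B ∧ x * b ∈ S'}.ncard :=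
  Set.ncard_le_ncard (fun b hb => ⟨hb.1, h hb.2⟩) (Set.toFinite _)

theorem extend [Finite G] (hM1 : S_M1) {A₀ A : Set G} {K L : Subgroup G} {B : Finset G} {e : ℕ}
    (hinv : ∀ a ∈ A₀, a⁻¹ ∈ A₀) (hconj : ∀ a ∈ A₀, ∀ g : G, g * a * g⁻¹ ∈ A₀) (hAA : A₀ ⊆ A)
    (hAinv : ∀ a ∈ A, a⁻¹ ∈ A) (hBA : ∀ b ∈ B, b ∈ A) (hKL : K ≤ L) (hBL : ∀ b ∈ B, b ∈ L)
    (hcard : B.card + e ≤ Nat.card K) (he : e = 1 ∨ ∀ b ∈ B, b * b = 1)
    {S : Set G} {f : Perm G} (h : St A₀ A K L B e S f) {x b : G} (hx : x ∈ S) (hb : b ∈ B) (hxb : x * b ∉ S) :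
    ∃ (S' : Set G) (f' : Perm G), S ⊂ S' ∧ St A₀ A K L B e S' f' := by
  classical
  obtain ⟨d, hd, hdoff, hdA, D, hD, hDc⟩ := h.loc x hx
  have hcoS : ∀ y ∈ S, co K y ⊆ S := by
    intro y hy z hz
    have h1 := h.mul _ hz y hy
    rwa [inv_mul_cancel_right] at h1
  -- an unused point
  have hlt : {b' | b' ∈ B ∧ x * b' ∈ S}.ncard < B.card := by
    rw [← Set.ncard_coe_finset]
    apply Set.ncard_lt_ncard _ (Set.toFinite _)
    refine ⟨fun b' hb' => hb'.1, fun hc => hxb (hc (show b ∈ (B : Set G) from hb)).2⟩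
  obtain ⟨p, hp, hpD⟩ : ∃ p ∈ co K x, p ∉ D := by
    by_contra hc
    push Not at hc
    have h1 : (co K x).ncard ≤ D.card := by
      rw [← Set.ncard_coe_finset]
      exact Set.ncard_le_ncard (fun y hy => hc y hy) (Set.toFinite _)
    rw [ncard_co] at h1
    omega
  have hfp : f p = d p := hD p hp hpD
  obtain ⟨u, hu⟩ : ∃ u, u = d p := ⟨_, rfl⟩
  have huc : u ∈ co K x := by rw [hu]; exact hd.1.mapsTo hp
  have huS : u ∈ S := hcoS x hx huc
  have hpS : p ∈ S := hcoS x hx hp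
  -- the new coset
  obtain ⟨T, hT⟩ : ∃ T, T = co K (x * b) := ⟨_, rfl⟩
  have hTS : Disjoint S T := by
    rw [Set.disjoint_left]
    intro y hyS hyT
    rw [hT] at hyT
    exact hxb (hcoS y hyS (symm hyT))
  obtain ⟨g, hg⟩ : ∃ g : Perm G, g = Equiv.mulRight b * d⁻¹ * (Equiv.mulRight b)⁻¹ := ⟨_, rfl⟩
  have hgap : ∀ z, g (z * b) = d⁻¹ z * b := by
    intro z
    rw [hg]
    simp
  have hTim : T = (Equiv.mulRight b : Perm G) '' (co K x) := by
    rw [hT]
    ext y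
    constructor
    · intro hy
      refine ⟨y * b⁻¹, ?_, by simp⟩
      have : y * b⁻¹ * b ∈ co K (x * b) := by simpa using hy
      exact right.mp this
    · rintro ⟨z, hz, rfl⟩
      show z * b ∈ co K (x * b)
      exact right.mpr hz
  have hgT : g.IsCycleOn T := by
    rw [hTim, hg]
    exact hd.inv.conj
  have hmemT : ∀ y, y ∈ T ↔ ∃ z ∈ co K x, z * b = y := by
    intro y
    rw [hTim]
    rfl
  have hgoff : ∀ y ∉ T, g y = y := by
    intro y hy
    have h1 : y * b⁻¹ ∉ co K x := by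
      intro hc
      exact hy ((hmemT y).mpr ⟨_, hc, by simp⟩)
    have h2 := hgap (y * b⁻¹)
    rw [inv_mul_cancel_right] at h2
    have h3 : d⁻¹ (y * b⁻¹) = y * b⁻¹ := by
      rw [Perm.inv_eq_iff_eq]
      exact (hdoff _ h1).symm
    rw [h2, h3, inv_mul_cancel_right]
  have hgA : ∀ y ∈ T, y⁻¹ * g y ∈ A₀ := by
    intro y hy
    obtain ⟨z, hz, rfl⟩ := (hmemT y).mp hy
    rw [hgap]
    obtain ⟨w, hw⟩ : ∃ w, w = d⁻¹ z := ⟨_, rfl⟩
    have hwc : w ∈ co K x := by rw [hw]; exact hd.inv.1.mapsTo hz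
    have hdw : d w = z := by rw [hw]; simp
    have h1 := hconj _ (hinv _ (hdA w hwc)) b⁻¹
    rw [← hw]
    have h2 : (z * b)⁻¹ * (w * b) = b⁻¹ * (w⁻¹ * d w)⁻¹ * b⁻¹⁻¹ := by
      rw [hdw]
      group
    rw [h2]
    exact h1
  obtain ⟨v, hv⟩ : ∃ v, v = p * b := ⟨_, rfl⟩
  have hvT : v ∈ T := by rw [hv]; exact (hmemT _).mpr ⟨p, hp, rfl⟩
  obtain ⟨q, hq⟩ : ∃ q, q = u * b := ⟨_, rfl⟩
  have hqT : q ∈ T := by rw [hq]; exact (hmemT _).mpr ⟨u, huc, rfl⟩
  have hgq : g q = v := by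
    rw [hq, hgap, hu, hv]
    simp
  obtain ⟨f₁, hf₁⟩ : ∃ f₁ : Perm G, f₁ = f * g := ⟨_, rfl⟩
  have hf₁S : ∀ y ∈ S, f₁ y = f y := by
    intro y hy
    rw [hf₁, Perm.mul_apply, hgoff y (Set.disjoint_left.mp hTS hy)]
  have hf₁T : ∀ y ∈ T, f₁ y = g y := by
    intro y hy
    have h1 : g y ∈ T := hgT.1.mapsTo hy
    rw [hf₁, Perm.mul_apply]
    exact h.off _ (fun hc => Set.disjoint_left.mp hTS hc h1)
  have hf₁off : ∀ y, y ∉ S → y ∉ T → f₁ y = y := by
    intro y hyS hyT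
    rw [hf₁, Perm.mul_apply, hgoff y hyT, h.off y hyS]
  have hcS : f₁.IsCycleOn S := congr_cyc h.cyc hf₁S
  have hcT : f₁.IsCycleOn T := congr_cyc hgT hf₁T
  obtain ⟨f', hf'⟩ : ∃ f' : Perm G, f' = swap u v * f₁ := ⟨_, rfl⟩
  have hcyc : f'.IsCycleOn (S ∪ T) := by
    rw [hf']
    exact hM1 G f₁ S T u v hcS hcT hTS huS hvT
  have hf₁p : f₁ p = u := by rw [hf₁S p hpS, hfp, hu]
  have hf₁q : f₁ q = v := by rw [hf₁T q hqT, hgq]
  have hf'p : f' p = v := by rw [hf', Perm.mul_apply, hf₁p, swap_apply_left]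
  have hf'q : f' q = u := by rw [hf', Perm.mul_apply, hf₁q, swap_apply_right]
  have hf'o : ∀ y, y ≠ p → y ≠ q → f' y = f₁ y := by
    intro y h1 h2
    rw [hf', Perm.mul_apply]
    apply swap_apply_of_ne_of_ne
    · rw [← hf₁p]
      exact fun hc => h1 (f₁.injective hc)
    · rw [← hf₁q]
      exact fun hc => h2 (f₁.injective hc)
  have hSq : ∀ y ∈ S, y ≠ q := by
    rintro y hy rfl
    exact Set.disjoint_left.mp hTS hy hqT
  have hTp : ∀ y ∈ T, y ≠ p := by
    rintro y hy rfl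
    exact Set.disjoint_left.mp hTS hpS hy
  have hf'S : ∀ y ∈ S, y ≠ p → f' y = f y := fun y hy h1 => by rw [hf'o y h1 (hSq y hy), hf₁S y hy]
  have hf'T : ∀ y ∈ T, y ≠ q → f' y = g y := fun y hy h1 => by rw [hf'o y (hTp y hy) h1, hf₁T y hy]
  have hxbT : x * b ∈ T := by rw [hT]; exact mem_self K _
  refine ⟨S ∪ T, f', ⟨Set.subset_union_left, fun hc => hxb (hc (Or.inr hxbT))⟩, ?_⟩
  refine ⟨Or.inl h.one, ?_, ?_, hcyc, ?_, ?_, ?_⟩
  · rintro y (hy | hy)
    · exact h.sub hy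
    · obtain ⟨z, hz, rfl⟩ := (hmemT y).mp hy
      exact L.mul_mem (h.sub (hcoS x hx hz)) (hBL b hb)
  · rintro k hk y (hy | hy)
    · exact Or.inl (h.mul k hk y hy)
    · right
      rw [hT] at hy ⊢
      show k * y * (x * b)⁻¹ ∈ K
      rw [mul_assoc]
      exact K.mul_mem hk hy
  · intro y hy
    have h1 : y ∉ S := fun hc => hy (Or.inl hc)
    have h2 : y ∉ T := fun hc => hy (Or.inr hc)
    have h3 : y ≠ p := by rintro rfl; exact h1 hpS
    have h4 : y ≠ q := by rintro rfl; exact h2 hqT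
    rw [hf'o y h3 h4, hf₁off y h1 h2]
  · rintro y (hy | hy)
    · by_cases h1 : y = p
      · rw [h1, hf'p, hv, inv_mul_cancel_left]
        exact hBA b hb
      · rw [hf'S y hy h1]
        exact h.stp y hy
    · by_cases h1 : y = q
      · rw [h1, hf'q, hq]
        have h2 : (u * b)⁻¹ * u = b⁻¹ := by group
        rw [h2]
        exact hAinv b (hBA b hb)
      · rw [hf'T y hy h1]
        exact hAA (hgA y hy)
  · rintro y (hy | hy)
    · by_cases hyx : y ∈ co K x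
      · rw [Loc, co_eq hyx]
        refine ⟨d, hd, hdoff, hdA, insert p D, ?_, ?_⟩
        · intro z hz hzD
          rw [Finset.mem_insert, not_or] at hzD
          rw [hf'S z (hcoS x hx hz) hzD.1]
          exact hD z hz hzD.2
        · have h1 := Finset.card_insert_le p D
          have h2 : {b' | b' ∈ B ∧ x * b' ∈ S}.ncard + 1 ≤ {b' | b' ∈ B ∧ y * b' ∈ S ∪ T}.ncard := by
            rw [← Set.ncard_insert_of_notMem (a := b) (fun hc => hxb hc.2) (Set.toFinite _)]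
            apply Set.ncard_le_ncard _ (Set.toFinite _)
            rintro b' (rfl | hb')
            · refine ⟨hb, Or.inr ?_⟩
              rw [hT]
              exact right.mpr hyx
            · refine ⟨hb'.1, Or.inl ?_⟩
              exact hcoS _ hb'.2 (right.mpr hyx)
          omega
      · obtain ⟨d', hd', hdoff', hdA', D', hD', hDc'⟩ := h.loc y hy
        refine ⟨d', hd', hdoff', hdA', D', ?_, hDc'.trans (Nat.add_le_add_right (count_mono Set.subset_union_left) _)⟩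
        intro z hz hzD
        have h1 : z ≠ p := by
          rintro rfl
          apply hyx
          have h2 := symm hz
          rwa [co_eq hp] at h2
        rw [hf'S z (hcoS y hy hz) h1]
        exact hD' z hz hzD
    · have hcoy : co K y = T := by
        rw [hT] at hy ⊢
        exact co_eq hy
      rw [Loc, hcoy]
      refine ⟨g, hgT, hgoff, hgA, {q}, ?_, ?_⟩
      · intro z hz hzq
        exact hf'T z hz (fun hc => hzq (Finset.mem_singleton.mpr hc))
      · rw [Finset.card_singleton]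
        rcases he with he | he
        · omega
        · have h1 : 1 ≤ {b' | b' ∈ B ∧ y * b' ∈ S ∪ T}.ncard := by
            rw [Nat.succ_le_iff, Set.ncard_pos (Set.toFinite _)]
            refine ⟨b, hb, Or.inl ?_⟩
            obtain ⟨z, hz, rfl⟩ := (hmemT y).mp hy
            rw [mul_assoc, he b hb, mul_one]
            exact hcoS x hx hz
          omega

theorem t_STEP (hM1 : S_M1) : S_STEP := by
  classical
  intro G _ _ A₀ A K L B c hinv hconj hAA hAinv hBA hc hcoff hcA hKL hBL hgen hcard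
  obtain ⟨e, hce, he⟩ : ∃ e : ℕ, B.card + e ≤ Nat.card K ∧ (e = 1 ∨ ∀ b ∈ B, b * b = 1) := by
    rcases hcard with h | h
    · exact ⟨1, h, Or.inl rfl⟩
    · exact ⟨0, h.2, Or.inr h.1⟩
  have hK : co K 1 = (K : Set G) := by
    ext y
    show y * 1⁻¹ ∈ K ↔ y ∈ K
    simp
  have h0 : St A₀ A K L B e (K : Set G) c := by
    refine ⟨K.one_mem, hKL, fun k hk g hg => K.mul_mem hk hg, hc, hcoff, fun x hx => hAA (hcA x hx), ?_⟩
    intro x hx
    have h1 : co K x = (K : Set G) := by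
      rw [← hK]
      apply co_eq
      rw [hK]
      exact hx
    rw [Loc, h1]
    exact ⟨c, hc, hcoff, hcA, ∅, fun _ _ _ => rfl, by simp⟩
  -- a maximal state
  have hfin : {S : Set G | ∃ f : Perm G, St A₀ A K L B e S f}.Finite := Set.toFinite _
  obtain ⟨S, hS⟩ := hfin.exists_maximal ⟨(K : Set G), c, h0⟩
  obtain ⟨f, hf⟩ := hS.prop
  have hcl : ∀ g ∈ S, ∀ b ∈ B, g * b ∈ S := by
    intro x hx b hb
    by_contra hxb
    obtain ⟨S', f', hlt, hst⟩ := extend hM1 hinv hconj hAA hAinv hBA hKL hBL hce he hf hx hb hxb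
    exact hlt.2 (hS.le_of_ge ⟨f', hst⟩ hlt.1)
  have hLS : (L : Set G) = S := Set.Subset.antisymm (hgen S hf.one hf.mul hcl) hf.sub
  refine ⟨f, ?_, fun x hx => hf.off x ?_, fun x hx => hf.stp x ?_⟩
  · rw [hLS]
    exact hf.cyc
  · intro hc
    rw [← hLS] at hc
    exact hx hc
  · rw [← hLS]
    exact hx

end Pool.Agent.J4H84.NC
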